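import Pool.Agent.Helper96.SP.Main5
import Pool.Agent.Helper96.SP.GDefs
import Pool.Agent.Helper46.DUAL

/-!
# Self-dual Chow-Künneth decompositions from one Schur power

`𝒜` is a `ℚ`-linear, idempotent complete, symmetric monoidal category with duals in which the
endomorphisms of the unit object are the rational multiples of the identity, `F` is a realisation: a
symmetric monoidal functor to finite-dimensional super vector spaces over a field `K` of
characteristic zero (`SuperRealisation`), and `G` a decomposition `F X = ⊕ H^k (X)` compatible with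
morphisms, exterior products and the parity (`CohomologyGrading`). The example is the category
`CHM(k)` of Chow motives over a field `k`, with a Weil cohomology.

`M` is an object with a pairing `μ : M ⊗ M ⟶ L`. `IsDuality μ`: the pairing is symmetric, and every
endomorphism of `M` has a unique transpose. `IsPoincare G c μ`: the cohomology of `L` is in degree
`c`, and the pairing of the cohomology of `M` is not degenerate. The example is the motive
`M = h(X)` of a smooth projective variety of dimension `d`, with `L = ℚ(-d)`, `c = 2 d` and the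
pairing `h(X) ⊗ h(X) = h(X × X) ⟶ h(X) ⟶ ℚ(-d)`; the transpose of a correspondence `f` is `σ^* f`,
where `σ` exchanges the two factors of `X × X`.

`HasSelfDualCK G c μ`: there are orthogonal idempotents `p k` of `M`, almost all zero, whose sum is
the identity, such that `p k` acts on the cohomology as the projection onto `H^k (M)`, `p k = 0` if
`H^k (M) = 0`, and the transpose of `p k` is `p (c - k)`. For `M = h(X)` this is a self-dual
Chow-Künneth decomposition of `X`.

`T M n` is the `n`-th tensor power of `M`. `SchurPart M n D`: `D` is a direct summand of `T M n`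
which is cut out by an idempotent of the algebra generated by the transpositions of neighbouring
factors; for instance `D` is the Schur power `S_λ (M)` for a partition `λ` of `n`.
`StandardC ⊥ G Y`: the projections onto the groups `H^k (Y)` are rational combinations of operators
given by endomorphisms of `Y`, i.e. the Künneth standard conjecture with rational coefficients.

Theorem. Let `M` be an object with such a duality, `D` a summand of `T M n` as above, `n ≥ 1`, and
`Y` any object, such that `D ⊗ Y` is not zero. Suppose that the cohomology of `M` has an even and an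
odd part, or that the cohomology of `D` is not concentrated in one degree. If `D ⊗ Y` is
Kimura-finite and satisfies the Künneth standard conjecture with rational coefficients, then `M` has
a self-dual Chow-Künneth decomposition.

Proof. (1) `M` is Kimura-finite and satisfies the Künneth standard conjecture with rational
coefficients: descent from Schur powers (`Pool.Agent.Helper96.SP.M5.main5`). So the kernel of
`End M ⟶ End H(M)` is nil, and there are endomorphisms `e k` acting as the projections onto
`H^k (M)`.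

(2) As the pairing is not degenerate and vanishes on `H^k (M) × H^l (M)` if `k + l ≠ c`, the
transpose of `e k` acts as the projection onto `H^(c - k) (M)`. Let `g` be half of the difference of
`∑ (2 k - c) e k` and its transpose; it acts as `2 k - c` on `H^k (M)`, and its transpose is `- g`.
The algebra `ℚ[g]` is commutative and stable under the transpose. The projections are polynomials in
the action of `g`, so they lift to unique idempotents `p k` of `ℚ[g]`. The transpose of `p k` is an
idempotent of `ℚ[g]` with the same action as `p (c - k)`; so it is equal to it.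
-/

open CategoryTheory MonoidalCategory Limits BraidedCategory

universe u v w

namespace Pool.Agent.Results.MP_8a7054_ag.SchurPowers

open Pool.Agent.TH90.AB Pool.Agent.TH90.Kim Pool.Agent.Helper96.SP

/-- `D` is the direct summand of the tensor power `T M n` cut out by an idempotent of the
`ℚ`-algebra generated by the transpositions of neighbouring factors. -/
def SchurPart {𝒜 : Type u} [Category.{v} 𝒜] [MonoidalCategory 𝒜] [SymmetricCategory 𝒜]
    [Preadditive 𝒜] [Linear ℚ 𝒜] (M : 𝒜) (n : ℕ) (D : 𝒜) : Prop :=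
  ∃ (i : D ⟶ T M n) (r : T M n ⟶ D), i ≫ r = 𝟙 D ∧
    (show End (T M n) from r ≫ i) ∈ Algebra.adjoin ℚ {s : End (T M n) | Adj M n s}

/-- The endomorphism `g` of `M` is a transpose of `f` for the pairing `μ`. -/
def IsTranspose {𝒜 : Type u} [Category.{v} 𝒜] [MonoidalCategory 𝒜] {M L : 𝒜} (μ : M ⊗ M ⟶ L)
    (f g : M ⟶ M) : Prop :=
  (f ▷ M) ≫ μ = (M ◁ g) ≫ μ

/-- The pairing `μ` is symmetric, and every endomorphism of `M` has a unique transpose. -/
structure IsDuality {𝒜 : Type u} [Category.{v} 𝒜] [MonoidalCategory 𝒜] [SymmetricCategory 𝒜]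
    {M L : 𝒜} (μ : M ⊗ M ⟶ L) : Prop where
  symmetric : (β_ M M).hom ≫ μ = μ
  transpose : ∀ f : M ⟶ M, ∃! g : M ⟶ M, IsTranspose μ f g

/-- The cohomology of `L` is concentrated in degree `c`, and the pairing which `μ` induces on the
cohomology of `M` is not degenerate. -/
structure IsPoincare {𝒜 : Type u} [Category.{v} 𝒜] [MonoidalCategory 𝒜] {K : Type w} [Field K]
    {F : RealData 𝒜 K} (G : CohomologyGrading F) (c : ℤ) {M L : 𝒜} (μ : M ⊗ M ⟶ L) : Prop where
  degree : ∀ k, k ≠ c → ∀ x ∈ G.gr L k, x = 0
  nondegenerate : ∀ y : F.V M, (∀ x : F.V M, F.map μ (F.ext x y) = 0) → y = 0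

/-- The `p k` are orthogonal idempotents with sum `𝟙 M`, almost all of them zero. -/
structure IsSystem {𝒜 : Type u} [Category.{v} 𝒜] [Preadditive 𝒜] {M : 𝒜} (p : ℤ → (M ⟶ M)) :
    Prop where
  idem : ∀ k, p k ≫ p k = p k
  ortho : ∀ k l, k ≠ l → p k ≫ p l = 0
  sum : ∃ s : Finset ℤ, (∀ k, k ∉ s → p k = 0) ∧ ∑ k ∈ s, p k = 𝟙 M

/-- `M` has a self-dual Chow-Künneth decomposition for the pairing `μ` with values in degree `c`:
orthogonal idempotents `p k` with sum `𝟙 M`, acting on the cohomology of `M` as the projections onto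
the `H^k (M)`, and with `p (c - k)` the transpose of `p k`. -/
def HasSelfDualCK {𝒜 : Type u} [Category.{v} 𝒜] [MonoidalCategory 𝒜] [Preadditive 𝒜] {K : Type w}
    [Field K] {F : RealData 𝒜 K} (G : CohomologyGrading F) (c : ℤ) {M L : 𝒜} (μ : M ⊗ M ⟶ L) :
    Prop :=
  ∃ p : ℤ → (M ⟶ M), IsSystem p ∧
    (∀ k, (∀ x ∈ G.gr M k, F.map (p k) x = x) ∧
      ∀ l, l ≠ k → ∀ x ∈ G.gr M l, F.map (p k) x = 0) ∧
    (∀ k, (∀ x ∈ G.gr M k, x = 0) → p k = 0) ∧ ∀ k, IsTranspose μ (p k) (p (c - k))

/-- Let `D` be a Schur power of `M` and `D ⊗ Y ≠ 0` Kimura-finite, with algebraic Künneth projectors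
(over `ℚ`). If `M` has a duality, and the cohomology of `D` is not in one degree or the cohomology of
`M` has both parities, then `M` has a self-dual Chow-Künneth decomposition. -/
theorem result {𝒜 : Type u} [Category.{v} 𝒜] [MonoidalCategory 𝒜] [SymmetricCategory 𝒜]
    [Preadditive 𝒜] [MonoidalPreadditive 𝒜] [Linear ℚ 𝒜] [MonoidalLinear ℚ 𝒜]
    [IsIdempotentComplete 𝒜] [∀ X : 𝒜, HasRightDual X]
    (hunit : ∀ f : 𝟙_ 𝒜 ⟶ 𝟙_ 𝒜, ∃ q : ℚ, f = q • 𝟙 (𝟙_ 𝒜))
    {K : Type w} [Field K] [CharZero K] (F : SuperRealisation 𝒜 K)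
    (G : CohomologyGrading F.toRealData) {M L D Y : 𝒜} {n : ℕ} (hn : 1 ≤ n)
    (hD : SchurPart M n D) (h0 : 𝟙 (D ⊗ Y) ≠ 0)
    (h2 : (¬ ∃ k : ℤ, ∀ x, x ∈ G.gr D k) ∨
      ((∃ k, Even k ∧ G.gr M k ≠ ⊥) ∧ ∃ k, Odd k ∧ G.gr M k ≠ ⊥))
    (hK : KimuraFinite (D ⊗ Y)) (hC : StandardC (⊥ : Subfield K) G (D ⊗ Y))
    (c : ℤ) (μ : M ⊗ M ⟶ L) (hμ : IsDuality μ) (hP : IsPoincare G c μ) :
    HasSelfDualCK G c μ := by
  obtain ⟨n, rfl⟩ : ∃ k, n = k + 1 := ⟨n - 1, by omega⟩
  obtain ⟨i, r, hir, hperm⟩ := hD
  obtain ⟨z, hz⟩ := M2.exists_ne F.toReal hunit hK h0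
  obtain ⟨hD0, hX0⟩ := M2.factors_ne F.toReal z hz
  rw [standardC_iff] at hC
  have h2' : (¬ ∃ k : ℤ, ∀ x, x ∈ G.toGrading.gr D k) ∨
      ((∃ x : F.toReal.V M, x ≠ 0 ∧ F.toReal.par M x = x) ∧
        ∃ x : F.toReal.V M, x ≠ 0 ∧ F.toReal.par M x = -x) := by
    rcases h2 with h2 | ⟨⟨k, hk, hk'⟩, ⟨l, hl, hl'⟩⟩
    · exact Or.inl h2
    · right
      obtain ⟨x, hx, hx0⟩ := Submodule.exists_mem_ne_zero_of_ne_bot hk'
      obtain ⟨y, hy, hy0⟩ := Submodule.exists_mem_ne_zero_of_ne_bot hl'
      exact ⟨⟨x, hx0, G.parity.even M k x hk hx⟩, ⟨y, hy0, G.parity.odd M l y hl hy⟩⟩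
  obtain ⟨-, ⟨N, hN⟩, he⟩ := M5.main5 hunit G.toGrading i r hir hperm hD0 h2' hX0 hK hC
  have hnil : ∀ f : End M, F.toReal.map (show M ⟶ M from f) = 0 → IsNilpotent f := by
    intro f hf
    refine ⟨N, ?_⟩
    have h1 := hN (List.replicate N f) (fun x hx => by
      rw [List.eq_of_mem_replicate hx]
      exact fun y => LinearMap.congr_fun hf y) List.length_replicate
    rwa [List.prod_replicate] at h1
  obtain ⟨s, p, h1, h3, h4, h5, h6, h7, h8⟩ := Pool.Agent.Helper46.DUAL.selfdual
    (F := F.toReal) G.toGrading c μ hμ.symmetric hμ.transpose hP.degree hP.nondegenerate hnil he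
  exact ⟨p, ⟨h4, h5, s, h1, h3⟩, h6, h7, h8⟩

end Pool.Agent.Results.MP_8a7054_ag.SchurPowers
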